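import Mathlib

set_option autoImplicit false

/-!
A lower bound for the number of edges of all half-sets of a graph with `c n²` edges forces every
vertex set `U` with at most `n / 2` elements to span at least `c (|U|² - ε n²)` edges, and hence
large complete subgraphs.
-/

open Finset Classical

namespace Pool.Agent.Lead.Halves

variable {V : Type} [Fintype V]

omit [Fintype V] in
/-- Restriction lemma: a quadratic function of a set, averaged over subsets. -/
theorem exists_restrict (f : V → V → ℝ) (hf : ∀ x y, f x y = f y x) (hd : ∀ x, f x x = 0)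
    (h0 : ∀ x y, 0 ≤ f x y) (l : V → ℝ) (t : ℕ) (ht : 1 ≤ t) :
    ∀ (s : ℕ), t ≤ s → ∀ Y : Finset V, Y.card = s →
      ∃ Z, Z ⊆ Y ∧ Z.card = t ∧
        (∑ x ∈ Z, ∑ y ∈ Z, f x y) + ∑ x ∈ Z, l x ≤
          ((t : ℝ) / s) ^ 2 * (∑ x ∈ Y, ∑ y ∈ Y, f x y) + (t : ℝ) / s * ∑ x ∈ Y, l x := by
  intro s hs
  induction s, hs using Nat.le_induction with
  | base =>
    intro Y hY
    refine ⟨Y, subset_rfl, hY, ?_⟩
    have : (t : ℝ) ≠ 0 := by positivity
    rw [div_self this]
    simp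
  | succ s hts ih =>
    intro Y hY
    have hs0 : (0 : ℝ) < s := by
      have : 1 ≤ s := le_trans ht hts
      exact_mod_cast this
    have hF0 : 0 ≤ ∑ x ∈ Y, ∑ y ∈ Y, f x y :=
      sum_nonneg fun x _ => sum_nonneg fun y _ => h0 x y
    -- the sums after removal of a vertex
    have e1 : ∀ v ∈ Y, (∑ x ∈ Y.erase v, ∑ y ∈ Y.erase v, f x y) =
        (∑ x ∈ Y, ∑ y ∈ Y, f x y) - 2 * ∑ y ∈ Y, f v y := by
      intro v hv
      have h1 : ∀ x, (∑ y ∈ Y.erase v, f x y) = (∑ y ∈ Y, f x y) - f x v := by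
        intro x
        rw [← Finset.sum_erase_add Y (fun y => f x y) hv]
        ring
      simp_rw [h1]
      rw [sum_sub_distrib]
      have h2 : (∑ x ∈ Y.erase v, ∑ y ∈ Y, f x y) = (∑ x ∈ Y, ∑ y ∈ Y, f x y) - ∑ y ∈ Y, f v y := by
        rw [← Finset.sum_erase_add Y (fun x => ∑ y ∈ Y, f x y) hv]
        ring
      have h3 : (∑ x ∈ Y.erase v, f x v) = (∑ y ∈ Y, f v y) := by
        rw [← Finset.sum_erase_add Y (fun y => f v y) hv, hd, add_zero]
        exact sum_congr rfl fun x _ => hf x v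
      rw [h2, h3]; ring
    have e2 : ∀ v ∈ Y, (∑ x ∈ Y.erase v, l x) = (∑ x ∈ Y, l x) - l v := by
      intro v hv
      rw [← Finset.sum_erase_add Y (fun y => l y) hv]
      ring
    have hc : ((Y.card : ℕ) : ℝ) = s + 1 := by rw [hY]; push_cast; ring
    -- the averages
    have a1 : ∑ v ∈ Y, (∑ x ∈ Y.erase v, ∑ y ∈ Y.erase v, f x y) =
        (s - 1) * ∑ x ∈ Y, ∑ y ∈ Y, f x y := by
      rw [sum_congr rfl e1, sum_sub_distrib, sum_const, nsmul_eq_mul, hc, ← mul_sum]
      ring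
    have a2 : ∑ v ∈ Y, (∑ x ∈ Y.erase v, l x) = s * ∑ x ∈ Y, l x := by
      rw [sum_congr rfl e2, sum_sub_distrib, sum_const, nsmul_eq_mul, hc]
      ring
    have key : ∃ v ∈ Y, ((t : ℝ) / s) ^ 2 * (∑ x ∈ Y.erase v, ∑ y ∈ Y.erase v, f x y) +
        (t : ℝ) / s * (∑ x ∈ Y.erase v, l x) ≤
        ((t : ℝ) / (s + 1)) ^ 2 * (∑ x ∈ Y, ∑ y ∈ Y, f x y) + (t : ℝ) / (s + 1) * ∑ x ∈ Y, l x := by
      apply Finset.exists_le_of_sum_le
      · rw [← Finset.card_pos, hY]; omega
      · rw [sum_add_distrib, ← mul_sum, ← mul_sum, a1, a2, sum_const, nsmul_eq_mul, hc]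
        have h5 : ((t : ℝ) / s) ^ 2 * ((s - 1) * ∑ x ∈ Y, ∑ y ∈ Y, f x y) ≤
            (s + 1) * (((t : ℝ) / (s + 1)) ^ 2 * (∑ x ∈ Y, ∑ y ∈ Y, f x y)) := by
          have h6 : ((t : ℝ) / s) ^ 2 * (s - 1) ≤ (s + 1) * ((t : ℝ) / (s + 1)) ^ 2 := by
            rw [div_pow, div_pow, div_mul_eq_mul_div, mul_div_assoc', div_le_div_iff₀ (by positivity)
              (by positivity)]
            have ht2 : (0 : ℝ) ≤ (t : ℝ) ^ 2 := by positivity
            nlinarith [mul_nonneg ht2 (by positivity : (0 : ℝ) ≤ (s : ℝ) + 1)]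
          calc _ = (((t : ℝ) / s) ^ 2 * (s - 1)) * ∑ x ∈ Y, ∑ y ∈ Y, f x y := by ring
            _ ≤ ((s + 1) * ((t : ℝ) / (s + 1)) ^ 2) * ∑ x ∈ Y, ∑ y ∈ Y, f x y :=
                mul_le_mul_of_nonneg_right h6 hF0
            _ = _ := by ring
        have h7 : (t : ℝ) / s * (s * ∑ x ∈ Y, l x) = (s + 1) * ((t : ℝ) / (s + 1) * ∑ x ∈ Y, l x) := by
          field_simp
        linarith
    obtain ⟨v, hv, hle⟩ := key
    obtain ⟨Z, hZ, hZc, hZle⟩ := ih (Y.erase v) (by rw [card_erase_of_mem hv, hY]; rfl)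
    refine ⟨Z, hZ.trans (erase_subset _ _), hZc, hZle.trans ?_⟩
    push_cast
    exact hle


/-- Number of ordered pairs in `S × T` which are edges. -/
noncomputable def E (G : SimpleGraph V) (S T : Finset V) : ℝ :=
  ∑ x ∈ S, ∑ y ∈ T, if G.Adj x y then (1 : ℝ) else 0

omit [Fintype V] in
theorem E_comm (G : SimpleGraph V) (S T : Finset V) : E G S T = E G T S := by
  unfold E
  rw [sum_comm]
  refine sum_congr rfl fun x _ => sum_congr rfl fun y _ => ?_
  simp [G.adj_comm]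

omit [Fintype V] in
theorem E_nonneg (G : SimpleGraph V) (S T : Finset V) : 0 ≤ E G S T :=
  sum_nonneg fun x _ => sum_nonneg fun y _ => by split_ifs <;> norm_num

omit [Fintype V] in
theorem E_union_left (G : SimpleGraph V) {S S' : Finset V} (h : Disjoint S S') (T : Finset V) :
    E G (S ∪ S') T = E G S T + E G S' T := by
  unfold E
  rw [sum_union h]

omit [Fintype V] in
theorem E_union_self (G : SimpleGraph V) {S S' : Finset V} (h : Disjoint S S') :
    E G (S ∪ S') (S ∪ S') = E G S S + 2 * E G S S' + E G S' S' := by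
  rw [E_union_left G h, E_comm G S, E_comm G S', E_union_left G h, E_union_left G h,
    E_comm G S' S]
  ring

/-- If all half-sets span many edges, then all smaller sets do. -/
theorem dense (G : SimpleGraph V) (B : ℝ) (hn : 2 ≤ Fintype.card V)
    (hW : ∀ W : Finset V, W.card = Fintype.card V / 2 → B ≤ E G W W)
    (U : Finset V) (hU : U.card ≤ Fintype.card V / 2) :
    4 * ((Fintype.card V : ℝ) - U.card) ^ 2 * B -
      ((Fintype.card V : ℝ) - 2 * U.card) * (Fintype.card V : ℝ) * E G univ univ ≤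
      (Fintype.card V : ℝ) ^ 2 * E G U U := by
  set n := Fintype.card V with hnd
  set h := n / 2 with hh
  set a := U.card with ha
  have hR : (Uᶜ).card = n - a := by rw [card_compl]
  have hh1 : 1 ≤ h := by omega
  have hh2 : (h : ℝ) ≤ n / 2 := by
    have : 2 * h ≤ n := by omega
    have : (2 : ℝ) * h ≤ n := by exact_mod_cast this
    linarith
  have han : (a : ℝ) ≤ h := by exact_mod_cast hU
  have hr : ((n - a : ℕ) : ℝ) = n - a := by
    rw [Nat.cast_sub (by omega)]
  have hrpos : (0 : ℝ) < (n : ℝ) - a := by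
    have : (1 : ℝ) ≤ h := by exact_mod_cast hh1
    linarith
  set ER := E G Uᶜ Uᶜ with hER
  set EU := E G U U with hEU
  set EX := E G U Uᶜ with hEX
  set T := E G univ univ with hT
  have hER0 : 0 ≤ ER := E_nonneg _ _ _
  have hEU0 : 0 ≤ EU := E_nonneg _ _ _
  have hEX0 : 0 ≤ EX := E_nonneg _ _ _
  -- decomposition of the total
  have hTd : T = EU + 2 * EX + ER := by
    rw [hT, ← union_compl U, E_union_self G disjoint_compl_right]
  set f : V → V → ℝ := fun x y => if G.Adj x y then (1 : ℝ) else 0 with hf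
  have f1 : ∀ x y, f x y = f y x := fun x y => by simp [hf, G.adj_comm]
  have f2 : ∀ x, f x x = 0 := fun x => by simp [hf]
  have f3 : ∀ x y, 0 ≤ f x y := fun x y => by simp only [hf]; split_ifs <;> norm_num
  -- first half-set
  have I : 4 * ((n : ℝ) - a) ^ 2 * B ≤ (n : ℝ) ^ 2 * ER := by
    obtain ⟨Z, hZ, hZc, hZle⟩ := exists_restrict f f1 f2 f3 (fun _ => 0) h hh1 (n - a) (by omega)
      Uᶜ hR
    simp only [sum_const_zero, add_zero, mul_zero] at hZle
    have h1 : B ≤ ((h : ℝ) / (n - a)) ^ 2 * ER := by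
      have := hW Z hZc
      rw [hr] at hZle
      exact this.trans hZle
    have h2 : B * (n - a) ^ 2 ≤ (h : ℝ) ^ 2 * ER := by
      calc B * (n - a) ^ 2 ≤ (((h : ℝ) / (n - a)) ^ 2 * ER) * (n - a) ^ 2 :=
            mul_le_mul_of_nonneg_right h1 (by positivity)
        _ = _ := by field_simp
    have h3 : (h : ℝ) ^ 2 ≤ (n / 2) ^ 2 := by gcongr
    nlinarith [mul_le_mul_of_nonneg_right h3 hER0]
  -- second half-set
  set κ : ℝ := ((n : ℝ) - 2 * a) / (2 * (n - a)) with hκ
  have hκ0 : 0 ≤ κ := by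
    apply div_nonneg <;> linarith
  have II : B ≤ EU + 2 * κ * EX + κ ^ 2 * ER := by
    rcases Nat.eq_zero_or_pos (h - a) with h0 | hpos
    · have : a = h := by omega
      have h1 : B ≤ EU := hW U (by omega)
      have h2 : 0 ≤ 2 * κ * EX := by positivity
      have h3 : 0 ≤ κ ^ 2 * ER := by positivity
      linarith
    · obtain ⟨Z, hZ, hZc, hZle⟩ := exists_restrict f f1 f2 f3 (fun y => 2 * ∑ x ∈ U, f y x)
        (h - a) hpos (n - a) (by omega) Uᶜ hR
      have hdisj : Disjoint U Z := disjoint_of_subset_right hZ disjoint_compl_right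
      have hWc : (U ∪ Z).card = h := by
        rw [card_union_of_disjoint hdisj, hZc]; omega
      have h1 := hW _ hWc
      rw [E_union_self G hdisj] at h1
      have e1 : (∑ x ∈ Z, 2 * ∑ y ∈ U, f x y) = 2 * E G U Z := by
        rw [← mul_sum, E_comm]; rfl
      have e2 : (∑ x ∈ Uᶜ, 2 * ∑ y ∈ U, f x y) = 2 * EX := by
        rw [← mul_sum, hEX, E_comm]; rfl
      have e3 : (∑ x ∈ Z, ∑ y ∈ Z, f x y) = E G Z Z := rfl
      have e4 : (∑ x ∈ Uᶜ, ∑ y ∈ Uᶜ, f x y) = ER := rfl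
      rw [e1, e2, e3, e4, hr] at hZle
      have hq : (((h - a : ℕ) : ℝ)) / (n - a) ≤ κ := by
        rw [hκ, Nat.cast_sub hU, div_le_div_iff₀ hrpos (by linarith)]
        have : (0:ℝ) ≤ (n : ℝ) - a := hrpos.le
        nlinarith
      have hq0 : 0 ≤ (((h - a : ℕ) : ℝ)) / (n - a) := by positivity
      have h4 : ((((h - a : ℕ) : ℝ)) / (n - a)) ^ 2 * ER ≤ κ ^ 2 * ER := by gcongr
      have h5 : (((h - a : ℕ) : ℝ)) / (n - a) * (2 * EX) ≤ κ * (2 * EX) := by gcongr
      linarith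
  -- conclusion
  have hk1 : 1 - κ = n / (2 * (n - a)) := by
    rw [hκ]; field_simp; ring
  have hn0 : (0 : ℝ) < n := by
    have : (2 : ℝ) ≤ n := by exact_mod_cast hn
    linarith
  have h6 : B ≤ (1 - κ) * EU + κ * T - κ * (1 - κ) * ER := by
    rw [hTd]; nlinarith
  have hkk : κ * (1 - κ) = ((n : ℝ) - 2 * a) * n / (4 * (n - a) ^ 2) := by
    rw [hk1, hκ]; field_simp; ring
  have hkk0 : 0 ≤ ((n : ℝ) - 2 * a) / n := div_nonneg (by linarith) hn0.le
  have h7 : ((n : ℝ) - 2 * a) / n * B ≤ κ * (1 - κ) * ER := by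
    rw [hkk]
    have : ((n : ℝ) - 2 * a) * n / (4 * (n - a) ^ 2) * ER =
      ((n : ℝ) - 2 * a) / n * ((n : ℝ) ^ 2 * ER / (4 * (n - a) ^ 2)) := by
      field_simp
    rw [this]
    apply mul_le_mul_of_nonneg_left _ hkk0
    rw [le_div_iff₀ (by positivity)]
    linarith
  have h8 : B + ((n : ℝ) - 2 * a) / n * B - κ * T ≤ (1 - κ) * EU := by linarith
  rw [hk1, hκ] at h8
  have h9 : (B + ((n : ℝ) - 2 * a) / n * B - (n - 2 * a) / (2 * (n - a)) * T) * (2 * n * (n - a)) ≤
      (n / (2 * (n - a)) * EU) * (2 * n * (n - a)) :=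
    mul_le_mul_of_nonneg_right h8 (by positivity)
  have e5 : (n / (2 * (n - a)) * EU) * (2 * n * (n - a)) = (n : ℝ) ^ 2 * EU := by
    field_simp
  have e6 : (B + ((n : ℝ) - 2 * a) / n * B - (n - 2 * a) / (2 * (n - a)) * T) * (2 * n * (n - a)) =
      4 * ((n : ℝ) - a) ^ 2 * B - (n - 2 * a) * n * T := by
    field_simp
    ring
  rw [e5, e6] at h9
  exact h9

omit [Fintype V] in
/-- Cliques in locally dense graphs. -/
theorem clique (G : SimpleGraph V) (c τ : ℝ) (hc : 0 < c) (hc1 : c ≤ 1) (hτ : 0 < τ) (h : ℕ)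
    (hE : ∀ U : Finset V, U.card ≤ h → τ ≤ U.card → c * (U.card : ℝ) ^ 2 ≤ E G U U) (j : ℕ) :
    ∀ U : Finset V, U.card ≤ h → τ ≤ c ^ j * U.card → ∃ s, s ⊆ U ∧ G.IsNClique j s := by
  induction j with
  | zero =>
    intro U _ _
    exact ⟨∅, by simp, by simp [SimpleGraph.isNClique_iff]⟩
  | succ j ih =>
    intro U hU hτU
    have hcU : c ^ (j + 1) * (U.card : ℝ) ≤ U.card := by
      have h1 : c ^ (j + 1) ≤ 1 := pow_le_one₀ hc.le hc1
      nlinarith [(Nat.cast_nonneg U.card : (0 : ℝ) ≤ U.card)]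
    have hUpos : (0 : ℝ) < U.card := by linarith
    have h1 := hE U hU (by linarith)
    have hne : U.Nonempty := by
      rw [← card_pos]; exact_mod_cast hUpos
    have h2 : ∃ v ∈ U, c * (U.card : ℝ) ≤ ∑ y ∈ U, if G.Adj v y then (1 : ℝ) else 0 := by
      apply Finset.exists_le_of_sum_le hne
      rw [sum_const, nsmul_eq_mul]
      unfold E at h1
      nlinarith
    obtain ⟨v, hv, hle⟩ := h2
    rw [← Finset.sum_filter, sum_const, nsmul_eq_mul, mul_one] at hle
    obtain ⟨s, hs, hsc⟩ := ih (U.filter (fun y => G.Adj v y)) ((card_filter_le _ _).trans hU) (by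
      calc τ ≤ c ^ (j + 1) * U.card := hτU
        _ = c ^ j * (c * U.card) := by ring
        _ ≤ _ := by gcongr)
    refine ⟨insert v s, ?_, ?_⟩
    · intro x hx
      rcases mem_insert.1 hx with rfl | hx
      · exact hv
      · exact (mem_filter.1 (hs hx)).1
    · apply hsc.insert
      intro b hb
      exact (mem_filter.1 (hs hb)).2

/-- The number of edges inside a set. -/
theorem E_self (G : SimpleGraph V) (W : Finset V) :
    E G W W = 2 * (({e : Sym2 V | e ∈ G.edgeSet ∧ ∀ v ∈ e, v ∈ W}).ncard : ℝ) := by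
  let H : SimpleGraph V :=
    { Adj := fun x y => G.Adj x y ∧ x ∈ W ∧ y ∈ W
      symm := ⟨fun x y h => ⟨h.1.symm, h.2.2, h.2.1⟩⟩
      loopless := ⟨fun x h => G.loopless.irrefl x h.1⟩ }
  have h1 : {e : Sym2 V | e ∈ G.edgeSet ∧ ∀ v ∈ e, v ∈ W} = H.edgeSet := by
    ext e
    induction e using Sym2.ind with
    | _ x y => simp [H]
  have h2 : H.edgeSet.ncard = H.edgeFinset.card := by
    rw [← SimpleGraph.coe_edgeFinset, Set.ncard_coe_finset]
  have h3 := H.sum_degrees_eq_twice_card_edges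
  rw [h1, h2]
  have h4 : ((∑ v, H.degree v : ℕ) : ℝ) = 2 * (H.edgeFinset.card : ℝ) := by
    rw [h3]; push_cast; ring
  rw [← h4]
  push_cast
  unfold E
  have h5 : ∀ x, (H.degree x : ℝ) = ∑ y, if H.Adj x y then (1 : ℝ) else 0 := by
    intro x
    rw [← SimpleGraph.card_neighborFinset_eq_degree, ← Finset.sum_filter, sum_const, nsmul_eq_mul,
      mul_one]
    congr 2
    ext y
    simp
  simp_rw [h5]
  rw [← Finset.sum_subset (Finset.subset_univ W)]
  · refine sum_congr rfl fun x hx => ?_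
    rw [← Finset.sum_subset (Finset.subset_univ W)]
    · refine sum_congr rfl fun y hy => ?_
      simp [H, hx, hy]
    · intro y _ hy
      simp [H, hy]
  · intro x _ hx
    simp [H, hx]

end Pool.Agent.Lead.Halves
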